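import Pool.Agent.TH100.Pisot.Absorb
import Pool.Agent.TH100.Pisot.Pow

/-!
# An absorbing substitution for the Pisot substitution conjecture

Let `M` be a nonnegative unimodular irreducible Pisot matrix. There is a substitution `τ`, with a
power of `M` as incidence matrix, which absorbs: for every `T` there is a `K` such that all
compositions, of any length, of substitutions with incidence matrices `M ^ i`, `1 ≤ i ≤ T`, and of a
block `τ ^ k`, `k ≥ K`, satisfy the Pisot substitution conjecture. In particular, for any two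
substitutions `α` and `β` whose incidence matrices are powers of `M`, the substitution
`α ∘ τ ^ k ∘ β` satisfies the conjecture for all large `k` (the lists `[α]` and `[β]`).

Built on the library `Pool/Agent/H812R2/PI` (helper812 and others) and on
`Pool/Agent/H811R3/PS/TPK.lean` (helper267).
-/

set_option autoImplicit false

namespace Pool.Agent.Results.MP_e732b0_an.AbsorbingSubstitution

open Pool.Agent.H812R2.PI Pool.Agent.TH100.Pisot

theorem result {m : ℕ} (M : Matrix (Fin (m+1)) (Fin (m+1)) ℤ)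
    (hnn : ∀ i j, 0 ≤ M i j) (hM : PisotMat M) :
    ∃ (n : ℕ) (τ : Fin (m+1) → List (Fin (m+1))), 1 ≤ n ∧ inc τ = M ^ n ∧
      ∀ T : ℕ, ∃ K : ℕ, ∀ k ≥ K, ∀ l₁ l₂ : List (Fin (m+1) → List (Fin (m+1))),
        (∀ ρ ∈ l₁ ++ l₂, ∃ i, 1 ≤ i ∧ i ≤ T ∧ inc ρ = M ^ i) →
          PisotMat (inc (compList (l₁ ++ List.replicate k τ ++ l₂))) ∧
          SemiConjToral (compList (l₁ ++ List.replicate k τ ++ l₂)) := by
  obtain ⟨n, τ, hn, hτ, h⟩ := absorbing M hnn hM
  refine ⟨n, τ, hn, hτ, fun T => ?_⟩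
  obtain ⟨K, hK⟩ := h T
  refine ⟨K, fun k hk l₁ l₂ hl => ?_⟩
  obtain ⟨⟨N, hN, h1⟩, h2⟩ := hK k hk l₁ l₂ hl
  refine ⟨?_, h2⟩
  rw [h1]
  exact pisotMat_pow M hnn hM N hN

end Pool.Agent.Results.MP_e732b0_an.AbsorbingSubstitution
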