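import Pool.Agent.TH990.PB.Fin

/-!
The Pisot substitution conjecture for billiard (cutting word) substitutions, in every dimension
and for every unimodular irreducible Pisot matrix.

Let `M` be a nonnegative unimodular irreducible Pisot matrix of size `m+1`. `NearCut ε x w` says
that the path of the word `w` in the lattice is, up to `ε`, the cutting (billiard) path of the
segment `x + [0,1] ab w`: the closed unit cube with lower corner at every vertex of the path,
enlarged by `ε`, meets the segment. Then there are `ε > 0` and `n₀` such that for all `n ≥ n₀` and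
all starting points `x` in the unit cube, every substitution `τ` with incidence matrix `M^n` whose
images are `ε`-almost cutting words of the segments from `x` to `x + M^n e_a` is semi-conjugate to
a toral translation, and so is every composition `ρ₁ ∘ ... ∘ ρ_k ∘ τ ∘ ρ'₁ ∘ ... ∘ ρ'_l` with
arbitrary substitutions `ρ_i`, `ρ'_i` with incidence matrix `M` (any `k, l ≥ 0`). Exact cutting
substitutions exist for all `n` and `x`.
-/

namespace Pool.Agent.Results.MP_e732b0_an.BilliardSubstitutions

open Pool.Agent.H812R2.PI Pool.Agent.TH990.PB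

theorem result {m : ℕ} (_hm : 1 ≤ m) (M : Matrix (Fin (m+1)) (Fin (m+1)) ℤ)
    (hnn : ∀ i j, 0 ≤ M i j) (hM : PisotMat M) :
    (∀ (n : ℕ) (x : Fin (m+1) → ℝ), (∀ j, 0 ≤ x j ∧ x j ≤ 1) →
      ∃ τ : Fin (m+1) → List (Fin (m+1)), inc τ = M ^ n ∧ ∀ a, NearCut 0 x (τ a)) ∧
    ∃ ε : ℝ, 0 < ε ∧ ∃ n₀ : ℕ, ∀ n ≥ n₀, ∀ x : Fin (m+1) → ℝ, (∀ j, 0 ≤ x j ∧ x j ≤ 1) →
      ∀ τ : Fin (m+1) → List (Fin (m+1)), inc τ = M ^ n → (∀ a, NearCut ε x (τ a)) →
      ∀ l l' : List (Fin (m+1) → List (Fin (m+1))), (∀ ρ ∈ l, inc ρ = M) →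
        (∀ ρ ∈ l', inc ρ = M) →
        SemiConjToral (comp (compList l) (comp τ (compList l'))) :=
  main M hnn hM

end Pool.Agent.Results.MP_e732b0_an.BilliardSubstitutions
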