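import Pool.Agent.TH27.PS.Near

/-!
Every composition of many substitutions with a given unimodular irreducible Pisot incidence
matrix satisfies the Pisot substitution conjecture after a bounded number of changes.

Let `M` be a nonnegative unimodular irreducible Pisot matrix. There are `K` and `n₀`, depending
only on `M`, such that for every `n ≥ n₀` and all substitutions `s_0, ..., s_(n-1)` with incidence
matrix `M` (for instance all equal to one substitution) there is a substitution `τ` with
incidence matrix `M ^ n` such that, for every letter `a`, the words `τ a` and
`(s_0 ∘ ... ∘ s_(n-1)) a` have the same length and differ in at most `K` positions, and the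
substitution dynamical system of `τ` is semi-conjugate to a minimal toral translation (continuous
surjection, exactly one preimage outside a null set).

The proof uses the library `Pool.Agent.H812R2.PI` of helper812 and others (surgery on pairs of
paths, uniform coincidence implies the toral model).
-/

set_option autoImplicit false

namespace Pool.Agent.Results.MP_e732b0_an.BoundedSurgery

open Pool.Agent.H812R2.PI

theorem result {m : ℕ} (M : Matrix (Fin (m+1)) (Fin (m+1)) ℤ)
    (hnn : ∀ i j, 0 ≤ M i j) (hM : PisotMat M) :
    ∃ K n₀ : ℕ, ∀ n ≥ n₀, ∀ s : Fin n → (Fin (m+1) → List (Fin (m+1))),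
      (∀ i, inc (s i) = M) →
      ∃ τ : Fin (m+1) → List (Fin (m+1)), inc τ = M ^ n ∧ SemiConjToral τ ∧
        ∀ a, (τ a).length = (compList (List.ofFn s) a).length ∧
          ((Finset.range (τ a).length).filter
            (fun k => (τ a)[k]? ≠ (compList (List.ofFn s) a)[k]?)).card ≤ K :=
  Pool.Agent.TH27.PS.near_composition M hnn hM

end Pool.Agent.Results.MP_e732b0_an.BoundedSurgery
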